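import Pool.Agent.Work.MP_bf01b2_co.Cx.Defs

/-!
# MP_bf01b2_co, `n + O(1)` : unfolding lemmas
-/

set_option autoImplicit false

namespace Pool.Agent.Work.MP_bf01b2_co.Cx

variable {H : ℕ}

lemma mem_popmin {P : Finset ℕ} {s : ℕ} : s ∈ popmin P ↔ s ∈ P ∧ ∃ s' ∈ P, s' < s := by
  simp [popmin]

lemma popmin_subset (P : Finset ℕ) : popmin P ⊆ P := Finset.filter_subset _ _

/-- The popped elements: those that have no smaller one. -/
lemma mem_sdiff_popmin {P : Finset ℕ} {s : ℕ} :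
    s ∈ P \ popmin P ↔ s ∈ P ∧ ∀ s' ∈ P, s ≤ s' := by
  rw [Finset.mem_sdiff, mem_popmin]
  constructor
  · rintro ⟨h1, h2⟩
    refine ⟨h1, fun s' hs' => ?_⟩
    by_contra h
    exact h2 ⟨h1, s', hs', by omega⟩
  · rintro ⟨h1, h2⟩
    refine ⟨h1, ?_⟩
    rintro ⟨-, s', hs', hlt⟩
    have := h2 s' hs'
    omega

lemma popmin_empty : popmin ∅ = ∅ := by simp [popmin]

lemma not_isPop_of_mod_eq_zero {I : ℕ → Inp H} {k : ℕ} (h : k % (H + 1) = 0) : ¬ IsPop I k := by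
  rintro (⟨h1, -⟩ | ⟨h1, -⟩) <;> omega

lemma not_isPush_of_mod_eq_zero {I : ℕ → Inp H} {k : ℕ} (h : k % (H + 1) = 0) : ¬ IsPush I k := by
  rintro ⟨h1, -⟩; omega

lemma not_isPop_of_isPush {I : ℕ → Inp H} {k : ℕ} (h : IsPush I k) : ¬ IsPop I k := by
  obtain ⟨h1, h2⟩ := h
  rintro (⟨-, h3, -⟩ | ⟨h3, -⟩)
  · rw [h2] at h3; exact Bool.noConfusion h3
  · omega

lemma pend_zero (Q : ℕ) (I : ℕ → Inp H) : pend Q I 0 = ∅ := rfl

lemma ex_zero (Q : ℕ) (I : ℕ → Inp H) : ex Q I 0 = ∅ := rfl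

open Classical in
lemma pend_slot0 (Q : ℕ) (I : ℕ → Inp H) {k : ℕ} (h : k % (H + 1) = 0) :
    pend Q I (k + 1) = if ∃ s ∈ pend Q I k, s + Q ≤ k / (H + 1) then ∅ else pend Q I k := by
  rw [pend, if_pos h]

/-- The beginning of the block `s`. -/
lemma pend_of_reset (Q : ℕ) (I : ℕ → Inp H) {s : ℕ} (h : Reset Q I s) :
    pend Q I (s * (H + 1) + 1) = ∅ := by
  rw [pend_slot0 Q I (by simp), if_pos]
  rw [Nat.mul_div_cancel _ (Nat.succ_pos H)]
  exact h

lemma pend_of_not_reset (Q : ℕ) (I : ℕ → Inp H) {s : ℕ} (h : ¬ Reset Q I s) :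
    pend Q I (s * (H + 1) + 1) = pend Q I (s * (H + 1)) := by
  rw [pend_slot0 Q I (by simp), if_neg]
  rw [Nat.mul_div_cancel _ (Nat.succ_pos H)]
  exact h

lemma pend_push (Q : ℕ) (I : ℕ → Inp H) {k : ℕ} (h : IsPush I k) :
    pend Q I (k + 1) = insert (k / (H + 1)) (pend Q I k) := by
  rw [pend, if_neg (fun h0 => not_isPush_of_mod_eq_zero h0 h), if_pos h]

lemma pend_pop (Q : ℕ) (I : ℕ → Inp H) {k : ℕ} (h : IsPop I k) :
    pend Q I (k + 1) = popmin (pend Q I k) := by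
  rw [pend, if_neg (fun h0 => not_isPop_of_mod_eq_zero h0 h),
    if_neg (fun h0 => not_isPop_of_isPush h0 h), if_pos h]

lemma pend_other (Q : ℕ) (I : ℕ → Inp H) {k : ℕ} (h0 : k % (H + 1) ≠ 0) (h1 : ¬ IsPush I k)
    (h2 : ¬ IsPop I k) : pend Q I (k + 1) = pend Q I k := by
  rw [pend, if_neg h0, if_neg h1, if_neg h2]

lemma ex_pop (Q : ℕ) (I : ℕ → Inp H) {k : ℕ} (h : IsPop I k) :
    ex Q I (k + 1) = ex Q I k ∪ (pend Q I k \ popmin (pend Q I k)) := by
  rw [ex, if_pos h]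

lemma ex_other (Q : ℕ) (I : ℕ → Inp H) {k : ℕ} (h : ¬ IsPop I k) :
    ex Q I (k + 1) = ex Q I k := by
  rw [ex, if_neg h]

/-- Case distinction for the time `k`. -/
lemma time_cases (I : ℕ → Inp H) (k : ℕ) :
    k % (H + 1) = 0 ∨ IsPush I k ∨ IsPop I k ∨
      (k % (H + 1) ≠ 0 ∧ ¬ IsPush I k ∧ ¬ IsPop I k) := by
  by_cases h0 : k % (H + 1) = 0
  · exact Or.inl h0
  · by_cases h1 : IsPush I k
    · exact Or.inr (Or.inl h1)
    · by_cases h2 : IsPop I k
      · exact Or.inr (Or.inr (Or.inl h2))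
      · exact Or.inr (Or.inr (Or.inr ⟨h0, h1, h2⟩))

/-- Membership after one step, away from a reset: an element of the queue stays or is the
smallest one and is popped. -/
lemma mem_pend_succ_of_mem (Q : ℕ) (I : ℕ → Inp H) {k s : ℕ} (h : s ∈ pend Q I k) :
    s ∈ pend Q I (k + 1) ∨ (IsPop I k ∧ (∀ s' ∈ pend Q I k, s ≤ s') ∧ s ∈ ex Q I (k + 1)) ∨
      (k % (H + 1) = 0 ∧ Reset Q I (k / (H + 1)) ∧ pend Q I (k + 1) = ∅) := by
  rcases time_cases I k with h0 | h0 | h0 | ⟨h0, h1, h2⟩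
  · have hk : k / (H + 1) * (H + 1) = k := Nat.div_mul_cancel (Nat.dvd_of_mod_eq_zero h0)
    by_cases hr : Reset Q I (k / (H + 1))
    · right; right
      refine ⟨h0, hr, ?_⟩
      have := pend_of_reset Q I hr
      rwa [hk] at this
    · left
      have := pend_of_not_reset Q I hr
      rw [hk] at this
      rw [this]
      exact h
  · left
    rw [pend_push Q I h0]
    exact Finset.mem_insert_of_mem h
  · by_cases hm : ∀ s' ∈ pend Q I k, s ≤ s'
    · right; left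
      refine ⟨h0, hm, ?_⟩
      rw [ex_pop Q I h0]
      exact Finset.mem_union_right _ (mem_sdiff_popmin.2 ⟨h, hm⟩)
    · left
      rw [pend_pop Q I h0, mem_popmin]
      push Not at hm
      obtain ⟨s', hs', hlt⟩ := hm
      exact ⟨h, s', hs', hlt⟩
  · left
    rw [pend_other Q I h0 h1 h2]
    exact h

/-- Where the elements of the queue come from. -/
lemma mem_pend_of_mem_succ (Q : ℕ) (I : ℕ → Inp H) {k s : ℕ} (h : s ∈ pend Q I (k + 1)) :
    s ∈ pend Q I k ∨ (IsPush I k ∧ s = k / (H + 1)) := by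
  rcases time_cases I k with h0 | h0 | h0 | ⟨h0, h1, h2⟩
  · left
    rw [pend_slot0 Q I h0] at h
    split_ifs at h with h3
    · exact absurd h (Finset.notMem_empty _)
    · exact h
  · rw [pend_push Q I h0] at h
    rcases Finset.mem_insert.1 h with h | h
    · exact Or.inr ⟨h0, h⟩
    · exact Or.inl h
  · left
    rw [pend_pop Q I h0] at h
    exact popmin_subset _ h
  · left
    rw [pend_other Q I h0 h1 h2] at h
    exact h

lemma ex_subset_succ (Q : ℕ) (I : ℕ → Inp H) (k : ℕ) : ex Q I k ⊆ ex Q I (k + 1) := by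
  by_cases h : IsPop I k
  · rw [ex_pop Q I h]; exact Finset.subset_union_left
  · rw [ex_other Q I h]

end Pool.Agent.Work.MP_bf01b2_co.Cx
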