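import Pool.Agent.Work.MP_bf01b2_co.Cx.Stmts

/-!
# D4: the exponential moment
-/

set_option autoImplicit false

namespace Pool.Agent.Work.MP_bf01b2_co.Cx

namespace ID4

theorem main {α : Type} [DecidableEq α] (len : α → ℕ) (P : Finset α → ℝ) (a : α → ℝ)
    (b : α → α → ℝ) (z : ℝ) (hz : 0 ≤ z) (ha : ∀ v, 0 ≤ a v) (hb : ∀ u v, 0 ≤ b u v)
    (hP : ∀ U, 0 ≤ P U) (n : ℕ) :
    ∀ (V : Finset α), V.card = n →
      (∀ U ⊆ V, ∀ v ∈ V, v ∉ U → (∀ u ∈ U, len u ≤ len v) →
        P (insert v U) ≤ P U * (a v + ∑ u ∈ U, b u v)) →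
      ∀ w : α → ℝ, (∀ u, 0 ≤ w u) →
      (∀ u ∈ V, w u * Real.exp (Real.exp 1 * z *
        ∑ v ∈ V.filter (fun v => v ≠ u ∧ len u ≤ len v), b u v) ≤ Real.exp 1) →
      ∑ U ∈ V.powerset, z ^ U.card * P U * ∏ u ∈ U, w u ≤
        P ∅ * Real.exp (Real.exp 1 * z * ∑ v ∈ V, a v) := by
  induction n with
  | zero =>
    intro V hV _ w _ _
    rw [Finset.card_eq_zero] at hV
    subst hV
    simp
  | succ n ih =>
    intro V hV hg w hw hwe
    have hne : V.Nonempty := Finset.card_pos.mp (by omega)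
    obtain ⟨m, hm, hmax⟩ := Finset.exists_max_image V len hne
    set V' := V.erase m with hV'
    have hins : insert m V' = V := Finset.insert_erase hm
    have hmV' : m ∉ V' := Finset.notMem_erase m V
    have hsub : V' ⊆ V := Finset.erase_subset m V
    have he0 : 0 < Real.exp 1 := Real.exp_pos 1
    have hwm : w m ≤ Real.exp 1 := by
      have h1 := hwe m hm
      have h2 : 1 ≤ Real.exp (Real.exp 1 * z *
          ∑ v ∈ V.filter (fun v => v ≠ m ∧ len m ≤ len v), b m v) := by
        apply Real.one_le_exp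
        have : 0 ≤ ∑ v ∈ V.filter (fun v => v ≠ m ∧ len m ≤ len v), b m v :=
          Finset.sum_nonneg fun v _ => hb m v
        positivity
      have h3 := hw m
      nlinarith
    set w' : α → ℝ := fun u => w u * Real.exp (z * w m * b u m) with hw'
    have hw'0 : ∀ u, 0 ≤ w' u := fun u => mul_nonneg (hw u) (Real.exp_pos _).le
    have hcard : V'.card = n := by
      rw [hV', Finset.card_erase_of_mem hm, hV]
      omega
    have hgV' : ∀ U ⊆ V', ∀ v ∈ V', v ∉ U → (∀ u ∈ U, len u ≤ len v) →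
        P (insert v U) ≤ P U * (a v + ∑ u ∈ U, b u v) :=
      fun U hU v hv hvU hl => hg U (hU.trans hsub) v (hsub hv) hvU hl
    have hweV' : ∀ u ∈ V', w' u * Real.exp (Real.exp 1 * z *
        ∑ v ∈ V'.filter (fun v => v ≠ u ∧ len u ≤ len v), b u v) ≤ Real.exp 1 := by
      intro u hu
      have huV : u ∈ V := hsub hu
      have hum : m ≠ u := by
        rintro rfl
        exact hmV' hu
      have h1 := hwe u huV
      have h2 : V.filter (fun v => v ≠ u ∧ len u ≤ len v) =
          insert m (V'.filter (fun v => v ≠ u ∧ len u ≤ len v)) := by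
        rw [← hins, Finset.filter_insert, if_pos ⟨hum, hmax u huV⟩]
      rw [h2, Finset.sum_insert (fun h => hmV' (Finset.mem_filter.1 h).1)] at h1
      refine le_trans ?_ h1
      rw [hw']
      simp only
      rw [mul_assoc, ← Real.exp_add]
      apply mul_le_mul_of_nonneg_left _ (hw u)
      apply Real.exp_le_exp.2
      have h3 : z * w m * b u m ≤ z * Real.exp 1 * b u m :=
        mul_le_mul_of_nonneg_right (mul_le_mul_of_nonneg_left hwm hz) (hb u m)
      nlinarith
    have hIH := ih V' hcard hgV' w' hw'0 hweV'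
    have hsplit : ∑ U ∈ V.powerset, z ^ U.card * P U * ∏ u ∈ U, w u =
        ∑ U ∈ V'.powerset, (z ^ U.card * P U * ∏ u ∈ U, w u) +
        ∑ U ∈ V'.powerset, (z ^ (insert m U).card * P (insert m U) * ∏ u ∈ insert m U, w u) := by
      rw [← hins, Finset.sum_powerset_insert hmV']
    have hterm : ∀ U ∈ V'.powerset, z ^ U.card * P U * ∏ u ∈ U, w u +
        z ^ (insert m U).card * P (insert m U) * ∏ u ∈ insert m U, w u ≤
        Real.exp (z * w m * a m) * (z ^ U.card * P U * ∏ u ∈ U, w' u) := by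
      intro U hU
      rw [Finset.mem_powerset] at hU
      have hmU : m ∉ U := fun h => hmV' (hU h)
      have h1 : P (insert m U) ≤ P U * (a m + ∑ u ∈ U, b u m) :=
        hg U (hU.trans hsub) m hm hmU fun u hu => hmax u (hsub (hU hu))
      rw [Finset.card_insert_of_notMem hmU, Finset.prod_insert hmU, pow_succ]
      have hpw : 0 ≤ ∏ u ∈ U, w u := Finset.prod_nonneg fun u _ => hw u
      have hzU : 0 ≤ z ^ U.card := pow_nonneg hz _
      have hS : 0 ≤ ∑ u ∈ U, b u m := Finset.sum_nonneg fun u _ => hb u m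
      have h2 : z ^ U.card * z * P (insert m U) * (w m * ∏ u ∈ U, w u) ≤
          z ^ U.card * z * (P U * (a m + ∑ u ∈ U, b u m)) * (w m * ∏ u ∈ U, w u) :=
        mul_le_mul_of_nonneg_right (mul_le_mul_of_nonneg_left h1 (mul_nonneg hzU hz))
          (mul_nonneg (hw m) hpw)
      have h3 : ∏ u ∈ U, w' u = (∏ u ∈ U, w u) * Real.exp (z * w m * ∑ u ∈ U, b u m) := by
        rw [hw', Finset.prod_mul_distrib, ← Real.exp_sum, Finset.mul_sum]
      have h4 : 1 + z * w m * (a m + ∑ u ∈ U, b u m) ≤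
          Real.exp (z * w m * a m) * Real.exp (z * w m * ∑ u ∈ U, b u m) := by
        rw [← Real.exp_add, ← mul_add]
        have := Real.add_one_le_exp (z * w m * (a m + ∑ u ∈ U, b u m))
        linarith
      have h5 : 0 ≤ z ^ U.card * P U * ∏ u ∈ U, w u := mul_nonneg (mul_nonneg hzU (hP U)) hpw
      calc z ^ U.card * P U * ∏ u ∈ U, w u +
            z ^ U.card * z * P (insert m U) * (w m * ∏ u ∈ U, w u)
          ≤ z ^ U.card * P U * ∏ u ∈ U, w u +
            z ^ U.card * z * (P U * (a m + ∑ u ∈ U, b u m)) * (w m * ∏ u ∈ U, w u) := by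
            linarith
        _ = (z ^ U.card * P U * ∏ u ∈ U, w u) * (1 + z * w m * (a m + ∑ u ∈ U, b u m)) := by
            ring
        _ ≤ (z ^ U.card * P U * ∏ u ∈ U, w u) *
            (Real.exp (z * w m * a m) * Real.exp (z * w m * ∑ u ∈ U, b u m)) :=
            mul_le_mul_of_nonneg_left h4 h5
        _ = Real.exp (z * w m * a m) * (z ^ U.card * P U * ∏ u ∈ U, w' u) := by
            rw [h3]
            ring
    rw [hsplit, ← Finset.sum_add_distrib]
    have hA : ∑ U ∈ V'.powerset, (z ^ U.card * P U * ∏ u ∈ U, w u +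
        z ^ (insert m U).card * P (insert m U) * ∏ u ∈ insert m U, w u) ≤
        Real.exp (z * w m * a m) * ∑ U ∈ V'.powerset, (z ^ U.card * P U * ∏ u ∈ U, w' u) := by
      rw [Finset.mul_sum]
      exact Finset.sum_le_sum hterm
    refine hA.trans ((mul_le_mul_of_nonneg_left hIH (Real.exp_pos _).le).trans ?_)
    rw [mul_left_comm, ← Real.exp_add]
    apply mul_le_mul_of_nonneg_left _ (hP ∅)
    apply Real.exp_le_exp.2
    have hsum : ∑ v ∈ V, a v = a m + ∑ v ∈ V', a v := by
      rw [← hins, Finset.sum_insert hmV']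
    rw [hsum]
    have h3 : z * w m * a m ≤ z * Real.exp 1 * a m :=
      mul_le_mul_of_nonneg_right (mul_le_mul_of_nonneg_left hwm hz) (ha m)
    nlinarith

end ID4

theorem expMom : ExpMom := by
  intro α _ V len P a b z p hz ha hb hP hg hp hzp
  have h := ID4.main len P a b z hz ha hb hP V.card V rfl hg (fun _ => 1)
    (fun _ => zero_le_one) (by
      intro u hu
      rw [one_mul]
      apply Real.exp_le_exp.2
      have h1 := hp u hu
      have h2 : 0 ≤ Real.exp 1 * z := mul_nonneg (Real.exp_pos 1).le hz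
      exact (mul_le_mul_of_nonneg_left h1 h2).trans hzp)
  simpa using h

end Pool.Agent.Work.MP_bf01b2_co.Cx
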