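import Mathlib

/-!
# MP_bf01b2_co : binary trees in hypercubes of dimension `n + O(1)`

Definitions.  The vertices of the tree are bit strings `v : List Bool` (a prefix closed finite
set).  The levels are cut into blocks of `H + 1` levels (slots `0, …, H`); `B` is the number of
windows (the block `t` uses the window `t % B`, which has the `H` normal coordinates `0, …, H - 1`
and the special coordinate `H`), `Q` the maximal age of a pending element, `Δ` the delay of the
marks.
-/

set_option autoImplicit false

namespace Pool.Agent.Work.MP_bf01b2_co.Cx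

/-! ### Counting -/

open Classical in
/-- Number of ways to choose the values on `A` (the other values are those of `I₀`) such that `E`
holds. -/
noncomputable def cnt {ι β : Type} [Fintype β] (A : Finset ι) (I₀ : ι → β)
    (E : (ι → β) → Prop) : ℕ :=
  (Finset.univ.filter fun y : (↥A → β) => E (Function.updateFinset I₀ A y)).card

/-! ### The automaton, along a path -/

/-- Input of a block: the requests and the order of the coordinates. -/
abbrev Inp (H : ℕ) : Type := (Fin (H + 1) → Bool) × Equiv.Perm (Fin H)

variable {H : ℕ}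

/-- Request in the slot `i` of the block `t`. -/
def rb (I : ℕ → Inp H) (t i : ℕ) : Bool := if h : i < H + 1 then (I t).1 ⟨i, h⟩ else false

/-- `k` is a time at which an element is pushed (the block `k / (H + 1)`). -/
def IsPush (I : ℕ → Inp H) (k : ℕ) : Prop := k % (H + 1) = 1 ∧ rb I (k / (H + 1)) 0 = true

/-- `k` is a time at which the smallest pending element (if any) is popped. -/
def IsPop (I : ℕ → Inp H) (k : ℕ) : Prop :=
  (k % (H + 1) = 1 ∧ rb I (k / (H + 1)) 0 = false ∧ rb I (k / (H + 1)) 1 = false) ∨
    (2 ≤ k % (H + 1) ∧ k % (H + 1) < H ∧ rb I (k / (H + 1)) (k % (H + 1)) = false)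

/-- Remove the smallest element. -/
def popmin (P : Finset ℕ) : Finset ℕ := P.filter fun s => ∃ s' ∈ P, s' < s

open Classical in
/-- The set of the pending elements (= blocks) before the time `k`. -/
noncomputable def pend (Q : ℕ) (I : ℕ → Inp H) : ℕ → Finset ℕ
  | 0 => ∅
  | k + 1 =>
    if k % (H + 1) = 0 then (if ∃ s ∈ pend Q I k, s + Q ≤ k / (H + 1) then ∅ else pend Q I k)
    else if IsPush I k then insert (k / (H + 1)) (pend Q I k)
    else if IsPop I k then popmin (pend Q I k)
    else pend Q I k

open Classical in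
/-- The set of the elements that have been popped before the time `k`. -/
noncomputable def ex (Q : ℕ) (I : ℕ → Inp H) : ℕ → Finset ℕ
  | 0 => ∅
  | k + 1 => if IsPop I k then ex Q I k ∪ (pend Q I k \ popmin (pend Q I k)) else ex Q I k

/-- There is a reset at the beginning of the block `s`. -/
def Reset (Q : ℕ) (I : ℕ → Inp H) (s : ℕ) : Prop := ∃ s' ∈ pend Q I (s * (H + 1)), s' + Q ≤ s

/-- Content, at the time `k`, of the coordinate used in the slot `i` of the block `s` (unfolded). -/
noncomputable def xs (Q Δ : ℕ) (I : ℕ → Inp H) (k s i : ℕ) : Bool :=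
  if i = 0 then
    decide (s * (H + 1) + 1 < k) && rb I s 0 && (rb I s 1 || decide (s ∈ ex Q I k))
  else if i = 1 then
    decide (s * (H + 1) + 1 < k) && rb I s 1 && (!rb I s 0 || decide (s ∈ ex Q I k))
  else if i < H then decide (s * (H + 1) + i < k) && rb I s i
  else if i = H then
    (if s * (H + 1) + H < k then rb I s H
    else decide (Δ ≤ s) && decide ((s - Δ) * (H + 1) + 1 < k) && rb I (s - Δ) 0 &&
      !rb I (s - Δ) 1)
  else false

/-- Slot of the coordinate `c` in the block `s`. -/
def sl (I : ℕ → Inp H) (s c : ℕ) : ℕ := if h : c < H then ((I s).2.symm ⟨c, h⟩ : Fin H) else c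

/-- Content, at the time `k`, of the coordinate `c` of the block `s` (unfolded). -/
noncomputable def X (Q Δ : ℕ) (I : ℕ → Inp H) (k s c : ℕ) : Bool := xs Q Δ I k s (sl I s c)

/-- Position at the time `k` in the cube: coordinate `c` of the window `w`. -/
noncomputable def Z (B Q Δ : ℕ) (I : ℕ → Inp H) (k w c : ℕ) : ZMod 2 :=
  ∑ s ∈ (Finset.range (k + Δ + 1)).filter (fun s => s % B = w),
    if X Q Δ I k s c = true then 1 else 0

/-- Number of zeros in the slots `2, …, H - 1` of the block `t`. -/
def zs (I : ℕ → Inp H) (t : ℕ) : ℕ := ((Finset.Ico 2 H).filter fun i => rb I t i = false).card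

/-- The inputs agree before the time `k`. -/
def Agree (I I' : ℕ → Inp H) (k : ℕ) : Prop :=
  (∀ j < k, rb I (j / (H + 1)) (j % (H + 1)) = rb I' (j / (H + 1)) (j % (H + 1))) ∧
    ∀ s, s * (H + 1) < k → (I s).2 = (I' s).2

/-! ### Normal inputs -/

/-- Normal part of the input of a block. -/
abbrev NInp (H : ℕ) : Type := (Fin H → Bool) × Equiv.Perm (Fin H)

/-- Normal part of the input of a block. -/
def nrm (ι : Inp H) : NInp H := (fun i => ι.1 i.castSucc, ι.2)

/-- Request of a normal input. -/
def nb (ν : NInp H) (i : ℕ) : Bool := if h : i < H then ν.1 ⟨i, h⟩ else false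

/-- Normal content of a block, `e` says whether the pushed element has been popped. -/
def cont (ν : NInp H) (e : Bool) (c : Fin H) : Bool :=
  if ((ν.2.symm c : Fin H) : ℕ) = 0 then nb ν 0 && (nb ν 1 || e)
  else if ((ν.2.symm c : Fin H) : ℕ) = 1 then nb ν 1 && (!nb ν 0 || e)
  else nb ν (ν.2.symm c : Fin H)

/-- Number of the zeros of a content. -/
def hol (x : Fin H → Bool) : ℕ := (Finset.univ.filter fun c => x c = false).card

/-- Number of the zeros in the slots `2, …, H - 1`. -/
def nz (ν : NInp H) : ℕ := ((Finset.Ico 2 H).filter fun i => nb ν i = false).card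

/-- Weight of a reset at `s`, for an interval that starts at `a`. -/
noncomputable def wt (H Q a s : ℕ) : ℝ :=
  if s < a + Q then (8 / (H : ℝ)) ^ (s - a) else 2 * 8 ^ Q / (H : ℝ) ^ (Q - 1)

/-- The block `t` is in the zone of a reset. -/
def Zone (Q : ℕ) (R : Finset ℕ) (t : ℕ) : Prop := ∃ s ∈ R, t < s ∧ s ≤ t + Q

/-! ### Trees -/

/-- `T` is closed under taking prefixes. -/
def PrefClosed (T : Finset (List Bool)) : Prop := ∀ v ∈ T, ∀ t : ℕ, v.take t ∈ T

/-- The inputs of the blocks on the path to `v`, for the options `ω`. -/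
def inp (ω : List Bool → Inp H) (v : List Bool) (t : ℕ) : Inp H :=
  (fun i => xor (v.getD (t * (H + 1) + i) false) ((ω (v.take (t * (H + 1)))).1 i),
    (ω (v.take (t * (H + 1)))).2)

/-- Position of the vertex `v`. -/
noncomputable def PZ (B Q Δ : ℕ) (ω : List Bool → Inp H) (v : List Bool) (w c : ℕ) : ZMod 2 :=
  Z B Q Δ (inp ω v) v.length w c

/-- Length of the longest common prefix. -/
def lcp (u v : List Bool) : ℕ :=
  Nat.findGreatest (fun n => u.take n = v.take n) (min u.length v.length)

/-- Number of the complete blocks of `v` that start after the longest common prefix with `u`. -/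
def fr (H : ℕ) (u v : List Bool) : ℕ := v.length / (H + 1) - (lcp u v / (H + 1) + 1)

/-- Weight of a related pair. -/
noncomputable def bw (H B Q : ℕ) (u v : List Bool) : ℝ :=
  if fr H u v < B + Q then 17 / 2 ^ ((H + 1) * (fr H u v - Q)) else 0

/-- Weight of a vertex. -/
noncomputable def aw (H B Q : ℕ) (v : List Bool) : ℝ :=
  17 / 2 ^ ((H + 1) * B) +
    if v.length / (H + 1) < B + Q then 17 / 2 ^ ((H + 1) * (v.length / (H + 1) - Q)) else 0

/-- Bound for the sum of the weights. -/
noncomputable def PI (H B Q : ℕ) : ℝ :=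
  17 * 2 ^ ((H + 1) * (Q + 2)) * ((H + 1) * (B + Q + 1) + 1 : ℝ) ^ 2

/-! ### Tags -/

/-- The block `t` is a tag block of the bit `j` of the stage `i`. -/
def Tg (κ i j t : ℕ) : Prop := (t + 1) % (2 ^ (i + 1) * κ) = 2 ^ i * (2 * j + 1)

instance (κ i j : ℕ) : DecidablePred (Tg κ i j) := fun t => by unfold Tg; infer_instance

/-- The last tag block of type `(i, j)` whose first letter has been read by `v` (`0` if there is
none). -/
def lt (H κ i j : ℕ) (v : List Bool) : ℕ :=
  Nat.findGreatest (Tg κ i j) ((v.length - 1) / (H + 1))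

/-- Tag bit `(i, j)` of the vertex `v`. -/
def tagb (H κ : ℕ) (g : List Bool → Bool) (i j : ℕ) (v : List Bool) : Bool :=
  if Tg κ i j (lt H κ i j v) then
    xor (v.getD (lt H κ i j v * (H + 1)) false) (g (v.take (lt H κ i j v * (H + 1))))
  else false

/-- Coordinates. -/
inductive Co where
  | real (w c : ℕ) : Co
  | tag (i j : ℕ) : Co
deriving DecidableEq

/-- Position of the vertex `v`, with the tags of the stages `≥ i₀`. -/
noncomputable def Pos (B Q Δ κ J i₀ : ℕ) (ω : List Bool → Inp H) (g : List Bool → Bool)
    (v : List Bool) : Co → ZMod 2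
  | Co.real w c => PZ B Q Δ ω v w c
  | Co.tag i j => if i₀ ≤ i ∧ i ≤ J ∧ j < κ ∧ tagb H κ g i j v = true then 1 else 0

/-- All coordinates. -/
def allCo (H B κ J : ℕ) : Finset Co :=
  ((Finset.range B ×ˢ Finset.range (H + 1)).image fun p => Co.real p.1 p.2) ∪
    ((Finset.Icc 1 J ×ˢ Finset.range κ).image fun p => Co.tag p.1 p.2)

open Classical in
/-- Every fibre of `Φ` on `T` has at most `M` elements. -/
def FibLe {γ : Type} (T : Finset (List Bool)) (Φ : List Bool → γ) (M : ℝ) : Prop :=
  ∀ y : γ, ((T.filter fun v => Φ v = y).card : ℝ) ≤ M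

/-! ### Components -/

open Classical in
/-- Length of the top of the black component of `v`: the last time at which `Φ` did not change. -/
noncomputable def tp {γ : Type} (Φ : List Bool → γ) (v : List Bool) : ℕ :=
  Nat.findGreatest (fun m => 0 < m ∧ Φ (v.take m) = Φ (v.take (m - 1))) v.length

end Pool.Agent.Work.MP_bf01b2_co.Cx
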