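import Pool.Agent.Work.MP_bf01b2_co.Cx.Stmts
import Pool.Agent.Work.MP_bf01b2_co.Stmts

/-!
# MP_bf01b2_co, `n + O(1)` : assembly
-/

set_option autoImplicit false

namespace Pool.Agent.Work.MP_bf01b2_co.Cx

theorem allCo_card (H B κ J : ℕ) : (allCo H B κ J).card ≤ (H + 1) * B + κ * J := by
  unfold allCo
  refine (Finset.card_union_le _ _).trans ?_
  have h1 : (Finset.image (fun p : ℕ × ℕ => Co.real p.1 p.2)
      (Finset.range B ×ˢ Finset.range (H + 1))).card ≤ B * (H + 1) := by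
    refine Finset.card_image_le.trans ?_
    rw [Finset.card_product, Finset.card_range, Finset.card_range]
  have h2 : (Finset.image (fun p : ℕ × ℕ => Co.tag p.1 p.2)
      (Finset.Icc 1 J ×ˢ Finset.range κ)).card ≤ J * κ := by
    refine Finset.card_image_le.trans ?_
    rw [Finset.card_product, Nat.card_Icc, Finset.card_range]
    simp
  calc _ ≤ B * (H + 1) + J * κ := Nat.add_le_add h1 h2
    _ = _ := by ring

theorem core (hload : LoadB) (hall : TagAll) (hnum : TagNum) (hpar : ParamsC) (hcol : ColEmb)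
    (hsize : CompSize) (hinj : CompInj) (hstep : PosStep) (hsmall : SmallEmb) : CoreC := by
  obtain ⟨U₀, hU₀⟩ := hnum 64 16 (by norm_num)
  obtain ⟨n₀, hn₀⟩ := hpar U₀
  refine ⟨8 + 2 ^ (U₀ + 19) * 2 ^ 34 + 2 ^ n₀, ?_⟩
  intro n T hT hc
  by_cases hn : n₀ ≤ n
  · obtain ⟨B, Q, Δ, J, U, h1, h2, h3, h4, h5, h6, h7, h8, h9, h10, h11⟩ := hn₀ n hn
    have hM : (2 : ℝ) ^ (U + 64 * J) = 128 * 2 ^ (n - 17 * B) := by
      have : U + 64 * J = (n - 17 * B) + 7 := by omega
      rw [this, pow_add]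
      norm_num
      ring
    obtain ⟨ω, hω⟩ := hload 16 B Q Δ n T (2 ^ (U + 64 * J)) le_rfl h5 (by omega) h7
      (by omega) hT hc (by
        rw [hM]
        have : ((16 : ℝ) : ℝ) = ((16 : ℕ) : ℝ) := by norm_num
        push_cast
        nlinarith [h11])
    obtain ⟨g, hg⟩ := hall 16 B Q Δ 64 J U₀ ω T (2 ^ (U + 64 * J)) (by norm_num) h6 (by norm_num)
      h9 (by omega) hT hU₀ (by
        apply pow_le_pow_right₀ (by norm_num)
        omega) hω
    have hF : (4 * ((2 : ℝ) ^ (U + 64 * J) / 2 ^ (64 * J))) = ((4 * 2 ^ U : ℕ) : ℝ) := by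
      rw [pow_add, mul_div_assoc, div_self (by positivity), mul_one]
      push_cast
      ring
    rw [hF] at hg
    refine hcol Co (allCo 16 B 64 J) T (Pos B Q Δ 64 J 1 ω g) (4 * 2 ^ U) (2 ^ (2 * (16 + 1)))
      _ hT hg (fun v => hsize 16 B Q Δ 64 J ω g T v (by norm_num) h5 h6 (by omega) (by norm_num))
      (fun u _ v _ => hinj 16 B Q Δ 64 J ω g u v (by norm_num) h6 (by norm_num) h8 (by omega))
      (fun v e => hstep 16 B Q Δ 64 J ω g v e (by norm_num) h5 h6 (by omega) (by norm_num)) ?_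
    have h12 := allCo_card 16 B 64 J
    have h13 : (4 * 2 ^ U) * 2 ^ (2 * (16 + 1)) ≤ 2 ^ (U₀ + 19) * 2 ^ 34 := by
      apply Nat.mul_le_mul _ (by norm_num)
      have : 4 * 2 ^ U = 2 ^ (U + 2) := by rw [pow_add]; ring
      rw [this]
      exact Nat.pow_le_pow_right (by norm_num) (by omega)
    have h14 : (allCo 16 B 64 J).card + 1 ≤ n + 8 := by omega
    have h15 := Nat.add_le_add h14 h13
    have h16 : 0 ≤ 2 ^ n₀ := Nat.zero_le _
    linarith
  · apply hsmall T _ hT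
    have h1 : T.card ≤ 2 ^ n₀ := hc.trans (Nat.pow_le_pow_right (by norm_num) (by omega))
    omega

theorem assemble (h1 : CoreC) (h2 : MP_bf01b2_co.TreeStr) : FinalC := by
  obtain ⟨C, hC⟩ := h1
  refine ⟨C, ?_⟩
  intro n V _ _ G _ hG hdeg hcard
  obtain ⟨f, hf, hpre, hadj⟩ := h2 V G hG hdeg
  have hpc : PrefClosed (Finset.univ.image f) := by
    intro v hv k
    obtain ⟨a, -, rfl⟩ := Finset.mem_image.mp hv
    obtain ⟨u, hu⟩ := hpre a k
    exact Finset.mem_image.mpr ⟨u, Finset.mem_univ _, hu⟩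
  obtain ⟨E, hE1, hE2⟩ := hC n (Finset.univ.image f) hpc
    (Finset.card_image_le.trans (by simpa using hcard))
  have hinj : Function.Injective fun v => E (f v) := by
    intro u v huv
    exact hf (hE1 _ (Finset.mem_image.mpr ⟨u, Finset.mem_univ _, rfl⟩) _
      (Finset.mem_image.mpr ⟨v, Finset.mem_univ _, rfl⟩) huv)
  refine ⟨⟨fun v => E (f v), ?_⟩, hinj⟩
  intro a b hab
  rw [SimpleGraph.fromRel_adj]
  refine ⟨fun h => hab.ne (hinj h), ?_⟩
  rcases hadj a b hab with ⟨e, he⟩ | ⟨e, he⟩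
  · left
    have h6 := hE2 (f a) e (he ▸ Finset.mem_image.mpr ⟨b, Finset.mem_univ _, rfl⟩)
    rw [← he] at h6
    exact h6
  · right
    have h6 := hE2 (f b) e (he ▸ Finset.mem_image.mpr ⟨a, Finset.mem_univ _, rfl⟩)
    rw [← he] at h6
    exact h6

end Pool.Agent.Work.MP_bf01b2_co.Cx
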