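import Pool.Agent.Work.MP_bf01b2_co.Cx.Defs

/-!
# MP_bf01b2_co, `n + O(1)` : statements of the items
-/

set_option autoImplicit false

namespace Pool.Agent.Work.MP_bf01b2_co.Cx

/-! ### A. The queue -/

/-- A1. -/
def PendMem : Prop := ∀ (H Q : ℕ) (I : ℕ → Inp H) (k s : ℕ), s ∈ pend Q I k →
  s * (H + 1) + 1 < k ∧ rb I s 0 = true

/-- A2. -/
def ExMem : Prop := ∀ (H Q : ℕ) (I : ℕ → Inp H) (k s : ℕ), s ∈ ex Q I k →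
  s * (H + 1) + 1 < k ∧ rb I s 0 = true ∧ s ∉ pend Q I k

/-- A3. First in, first out. -/
def Fifo : Prop := ∀ (H Q : ℕ) (I : ℕ → Inp H) (k s t : ℕ), s ∈ pend Q I k → s ≤ t →
  t * (H + 1) + 1 < k → rb I t 0 = true → t ∈ pend Q I k

/-- A4. -/
def Age : Prop := ∀ (H Q : ℕ) (I : ℕ → Inp H) (k s t : ℕ), 0 < Q → s ∈ pend Q I k →
  t * (H + 1) < k → t < s + Q

/-- A5. -/
def ResetStr : Prop := ∀ (H Q : ℕ) (I : ℕ → Inp H) (s : ℕ), 0 < Q → Reset Q I s →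
  Q ≤ s ∧ s - Q ∈ pend Q I (s * (H + 1)) ∧ pend Q I (s * (H + 1) + 1) = ∅ ∧
    ∀ t, t ∈ pend Q I (s * (H + 1)) ↔ s - Q ≤ t ∧ t < s ∧ rb I t 0 = true

/-- A6. -/
def Lost : Prop := ∀ (H Q : ℕ) (I : ℕ → Inp H) (k k' s : ℕ), k ≤ k' → ex Q I k ⊆ ex Q I k' ∧
  (s * (H + 1) + 1 < k → s ∉ pend Q I k → s ∉ pend Q I k' ∧ (s ∉ ex Q I k → s ∉ ex Q I k'))

/-- A7. How an element can leave the queue. -/
def Exit : Prop := ∀ (H Q : ℕ) (I : ℕ → Inp H) (k s : ℕ), 1 ≤ H → s * (H + 1) + 1 < k →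
  rb I s 0 = true → s ∉ pend Q I k →
    s ∈ ex Q I k ∨ ∃ r, Reset Q I r ∧ s < r ∧ r * (H + 1) < k ∧ s ∈ pend Q I (r * (H + 1))

open Classical in
/-- A8. The number of the pop times. -/
def PopCount : Prop := ∀ (H Q : ℕ) (I : ℕ → Inp H) (k k' s : ℕ), k ≤ k' → s ∈ pend Q I k →
  s ∈ pend Q I k' →
    ((Finset.Ico k k').filter fun j => IsPop I j).card +
      ((pend Q I k').filter fun s' => s' < s).card ≤ ((pend Q I k).filter fun s' => s' < s).card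

/-- A9. Causality. -/
def Causal : Prop := ∀ (H Q Δ : ℕ) (I I' : ℕ → Inp H) (k : ℕ), 2 ≤ H → Agree I I' k →
  pend Q I k = pend Q I' k ∧ ex Q I k = ex Q I' k ∧ ∀ s c, X Q Δ I k s c = X Q Δ I' k s c

/-- A10. The evolution after a given time only depends on the queue. -/
def DetEvo : Prop := ∀ (H Q : ℕ) (I I' : ℕ → Inp H) (σ : ℕ),
  pend Q I (σ * (H + 1) + 1) = pend Q I' (σ * (H + 1) + 1) → (∀ t, σ ≤ t → I t = I' t) →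
    ∀ k, σ * (H + 1) ≤ k → (σ * (H + 1) < k → pend Q I k = pend Q I' k) ∧
      ∀ s, (s ∈ ex Q I k ∧ s ∉ ex Q I (σ * (H + 1) + 1)) ↔
        (s ∈ ex Q I' k ∧ s ∉ ex Q I' (σ * (H + 1) + 1))

/-- A11. -/
def ZBound : Prop := ∀ (H Q : ℕ) (I : ℕ → Inp H) (σ τ : ℕ), σ < τ →
  (∀ s, σ < s → s ≤ τ → (pend Q I (s * (H + 1) + 1)).Nonempty) →
    ∑ t ∈ Finset.Ico σ τ, zs I t + 1 ≤ (pend Q I (σ * (H + 1) + 1)).card + (τ - σ)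

/-- A12. -/
def HoleSum : Prop := ∀ (H Q : ℕ) (I : ℕ → Inp H) (s : ℕ), 2 ≤ H → 0 < Q → Reset Q I s →
  ∑ t ∈ Finset.Ico (s - Q + 1) s, zs I t ≤ Q ∧
    ∀ a, a < s → s < a + Q → ∑ t ∈ Finset.Ico a s, zs I t ≤ s - a

/-! ### B. The position -/

/-- B1. At most one coordinate changes, none in the slot `0`. -/
def StepX : Prop := ∀ (H Q Δ : ℕ) (I : ℕ → Inp H) (k : ℕ), 2 ≤ H → 0 < Q → 0 < Δ →
  (∀ s c, X Q Δ I (k + 1) s c = X Q Δ I k s c) ∨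
    (k % (H + 1) ≠ 0 ∧ ∃ s₀ c₀, c₀ ≤ H ∧ s₀ ≤ k + Δ ∧ X Q Δ I (k + 1) s₀ c₀ ≠ X Q Δ I k s₀ c₀ ∧
      ∀ s c, (s, c) ≠ (s₀, c₀) → X Q Δ I (k + 1) s c = X Q Δ I k s c)

/-- B2. -/
def XRange : Prop := ∀ (H Q Δ : ℕ) (I : ℕ → Inp H) (k s c : ℕ), X Q Δ I k s c = true →
  s ≤ k / (H + 1) + Δ ∧ c ≤ H

/-- B3. -/
def StepZ : Prop := ∀ (H B Q Δ : ℕ) (I : ℕ → Inp H) (k : ℕ), 2 ≤ H → 0 < B → 0 < Q → 0 < Δ →
  (∀ w c, Z B Q Δ I (k + 1) w c = Z B Q Δ I k w c) ∨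
    (k % (H + 1) ≠ 0 ∧ ∃ w₀ c₀, w₀ < B ∧ c₀ ≤ H ∧
      ∀ w c, Z B Q Δ I (k + 1) w c = Z B Q Δ I k w c + if w = w₀ ∧ c = c₀ then 1 else 0)

/-- B4. The folding is injective on intervals of length `B`. -/
def FoldInj : Prop := ∀ (H B Q Δ : ℕ) (I I' : ℕ → Inp H) (k k' lo : ℕ), 0 < B →
  (∀ s c, s < lo ∨ lo + B ≤ s → X Q Δ I k s c = X Q Δ I' k' s c) →
    (∀ w c, Z B Q Δ I k w c = Z B Q Δ I' k' w c) → ∀ s c, X Q Δ I k s c = X Q Δ I' k' s c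

/-- B5. Old blocks do not change. -/
def Supp : Prop := ∀ (H Q Δ : ℕ) (I I' : ℕ → Inp H) (k k' t₀ : ℕ), 2 ≤ H → 0 < Q →
  (∀ t < t₀, I t = I' t) → t₀ * (H + 1) ≤ k → t₀ * (H + 1) ≤ k' →
    ∀ s c, s + Q ≤ t₀ → X Q Δ I k s c = X Q Δ I' k' s c

/-- B6. Decoding. -/
def DecX : Prop := ∀ (H Q Δ : ℕ) (I I' : ℕ → Inp H) (k t₀ : ℕ), 2 ≤ H → 0 < Q → 0 < Δ →
  (∀ t < t₀, I t = I' t) →
  (∀ t, (∀ t' < t, ∀ i ≤ H, rb I t' i = rb I' t' i) → (I t).2 = (I' t).2) →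
  k / (H + 1) < t₀ + Δ → (∀ s c, X Q Δ I k s c = X Q Δ I' k s c) →
    ∀ j, j < k → (j % (H + 1) ≠ 0 ∨ j + 1 < k) →
      rb I (j / (H + 1)) (j % (H + 1)) = rb I' (j / (H + 1)) (j % (H + 1))

/-- B7. Local injectivity on a level. -/
def LocInj : Prop := ∀ (H B Q Δ : ℕ) (ω : List Bool → Inp H) (u v : List Bool) (t₀ : ℕ),
  2 ≤ H → 0 < Q → 0 < Δ → u.length = v.length → t₀ * (H + 1) ≤ u.length →
  u.take (t₀ * (H + 1)) = v.take (t₀ * (H + 1)) → u.length / (H + 1) < t₀ + Δ →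
  u.length / (H + 1) + Δ + Q ≤ t₀ + B → (∀ w c, PZ B Q Δ ω u w c = PZ B Q Δ ω v w c) →
    u.take (u.length - 1) = v.take (u.length - 1) ∧ (u.length % (H + 1) ≠ 1 → u = v)

/-- B8. Two branches. -/
def Branch : Prop := ∀ (H B Q Δ : ℕ) (ω : List Bool → Inp H) (u v : List Bool) (n t₁ : ℕ),
  2 ≤ H → 0 < Q → 0 < Δ → n < u.length → n < v.length → u.take n = v.take n →
  u.getD n false ≠ v.getD n false → n % (H + 1) ≠ 0 → u.length / (H + 1) ≤ t₁ →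
  v.length / (H + 1) ≤ t₁ → t₁ < n / (H + 1) + Δ → t₁ + Δ + Q ≤ n / (H + 1) + B →
    ∃ w c, PZ B Q Δ ω u w c ≠ PZ B Q Δ ω v w c

/-- B9. One branch. -/
def Chain : Prop := ∀ (H B Q Δ : ℕ) (ω : List Bool → Inp H) (v : List Bool) (n t₁ : ℕ),
  2 ≤ H → 0 < Q → 0 < Δ → n < v.length → n % (H + 1) ≠ 0 →
  (∃ w c, PZ B Q Δ ω (v.take (n + 1)) w c ≠ PZ B Q Δ ω (v.take n) w c) →
  v.length / (H + 1) ≤ t₁ → t₁ < n / (H + 1) + Δ → t₁ + Δ + Q ≤ n / (H + 1) + B →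
    ∃ w c, PZ B Q Δ ω v w c ≠ PZ B Q Δ ω (v.take n) w c

/-- B10. The position of a prefix. -/
def TakePZ : Prop := ∀ (H B Q Δ : ℕ) (ω ω' : List Bool → Inp H) (v : List Bool) (n : ℕ),
  2 ≤ H → n ≤ v.length → (∀ t, t * (H + 1) < n → ω (v.take (t * (H + 1))) =
    ω' (v.take (t * (H + 1)))) →
    ∀ w c, PZ B Q Δ ω (v.take n) w c = Z B Q Δ (inp ω' v) n w c

/-! ### C. Counting the inputs with a given position -/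

open Classical in
/-- C1. -/
def ContTrue : Prop := ∀ (H : ℕ) (x : Fin H → Bool),
  (Finset.univ.filter fun ν : NInp H => cont ν true = x).card = H.factorial

open Classical in
/-- C2. -/
def ContFalse : Prop := ∀ (H : ℕ) (x : Fin H → Bool), 2 ≤ H →
  (Finset.univ.filter fun ν : NInp H => cont ν false = x).card ≤ 2 * hol x * (H - 1).factorial

/-- C3. -/
def HolLe : Prop := ∀ (H : ℕ) (ν : NInp H), hol (cont ν false) ≤ nz ν + 2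

/-- C4. The content of a complete block. -/
def ContX : Prop := ∀ (H Q Δ : ℕ) (I : ℕ → Inp H) (k s : ℕ), 2 ≤ H → (s + 1) * (H + 1) ≤ k →
  ∀ c : Fin H, X Q Δ I k s c = cont (nrm (I s)) (decide (s ∈ ex Q I k)) c

/-- C5. In a class, the zones are known. -/
def ZoneEx : Prop := ∀ (H Q : ℕ) (I : ℕ → Inp H) (a e σ k : ℕ) (P R : Finset ℕ),
  2 ≤ H → 0 < Q → a ≤ e → e ≤ σ → σ * (H + 1) ≤ k → (∀ s ∈ P, e ≤ s) →
  pend Q I (σ * (H + 1) + 1) = P → (∀ s, e < s → s ≤ σ → ¬ Reset Q I s) →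
  (∀ s, a < s → s ≤ e → (Reset Q I s ↔ s ∈ R)) → R ⊆ Finset.Ioc a e →
    ∀ t, a ≤ t → t < e → rb I t 0 = true → (t ∈ ex Q I k ↔ ¬ Zone Q R t)

/-- C6. In a class, the status of the elements of the blocks outside `[a, e)` is known. -/
def OutEx : Prop := ∀ (H Q : ℕ) (I I' : ℕ → Inp H) (a e σ k : ℕ) (P R : Finset ℕ),
  2 ≤ H → 0 < Q → a ≤ e → e ≤ σ → σ * (H + 1) ≤ k → (∀ s ∈ P, e ≤ s) →
  (∀ t, t < a ∨ e ≤ t → I t = I' t) → R ⊆ Finset.Ioc a e →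
  pend Q I (σ * (H + 1) + 1) = P → (∀ s, e < s → s ≤ σ → ¬ Reset Q I s) →
  (∀ s, a < s → s ≤ e → (Reset Q I s ↔ s ∈ R)) →
  pend Q I' (σ * (H + 1) + 1) = P → (∀ s, e < s → s ≤ σ → ¬ Reset Q I' s) →
  (∀ s, a < s → s ≤ e → (Reset Q I' s ↔ s ∈ R)) →
    ∀ t, t < a ∨ e ≤ t → (t ∈ ex Q I k ↔ t ∈ ex Q I' k)

/-- C7. In a class with a given position, the contents are known. -/
def ClassEq : Prop := ∀ (H B Q Δ : ℕ) (I I' : ℕ → Inp H) (a e σ k : ℕ) (P R : Finset ℕ),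
  2 ≤ H → 0 < B → 0 < Q → 0 < Δ → a ≤ e → e ≤ a + B → e ≤ σ → σ * (H + 1) ≤ k →
  (∀ s ∈ P, e ≤ s) → (∀ t, t < a ∨ e ≤ t → I t = I' t) → R ⊆ Finset.Ioc a e →
  pend Q I (σ * (H + 1) + 1) = P → (∀ s, e < s → s ≤ σ → ¬ Reset Q I s) →
  (∀ s, a < s → s ≤ e → (Reset Q I s ↔ s ∈ R)) →
  pend Q I' (σ * (H + 1) + 1) = P → (∀ s, e < s → s ≤ σ → ¬ Reset Q I' s) →
  (∀ s, a < s → s ≤ e → (Reset Q I' s ↔ s ∈ R)) →
  (∀ w c, Z B Q Δ I k w c = Z B Q Δ I' k w c) →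
    (∀ t, a ≤ t → t < e → ∀ c : Fin H, X Q Δ I k t c = X Q Δ I' k t c) ∧
      ((∀ t, a ≤ t → t < e → nrm (I t) = nrm (I' t)) → ∀ t, I t = I' t)

/-- C8. Product of the weights in the zones. -/
def ProdWt : Prop := ∀ (H Q a e : ℕ) (R : Finset ℕ) (h : ℕ → ℕ) (f : ℕ → ℝ), 2 ≤ H → 0 < Q →
  R ⊆ Finset.Ioc a e → (∀ s ∈ R, ∀ s' ∈ R, s < s' → s + Q ≤ s') →
  (∀ s ∈ R, a + Q ≤ s → ∑ t ∈ Finset.Ico (s - Q + 1) s, h t ≤ 3 * Q) →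
  (∀ s ∈ R, s < a + Q → ∑ t ∈ Finset.Ico a s, h t ≤ 3 * (s - a)) →
  (∀ t, 0 ≤ f t) → (∀ t, ¬ Zone Q R t → f t ≤ 1) →
  (∀ t, Zone Q R t → f t ≤ 2 ∧ f t ≤ 2 ^ h t / H) →
    ∏ t ∈ Finset.Ico a e, f t ≤ ∏ s ∈ R, wt H Q a s

/-- C9. The number of the inputs in a class. -/
def ClassCount : Prop := ∀ (H B Q Δ : ℕ) (I₀ : ℕ → Inp H) (a e σ k : ℕ) (P R : Finset ℕ)
  (x : ℕ → ℕ → ZMod 2),
  2 ≤ H → 0 < B → 0 < Q → 0 < Δ → a ≤ e → e ≤ a + B → e ≤ σ → σ * (H + 1) ≤ k →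
  (∀ s ∈ P, e ≤ s) → R ⊆ Finset.Ioc a e →
    (cnt (Finset.Ico a e) I₀ (fun I => pend Q I (σ * (H + 1) + 1) = P ∧
      (∀ s, e < s → s ≤ σ → ¬ Reset Q I s) ∧ (∀ s, a < s → s ≤ e → (Reset Q I s ↔ s ∈ R)) ∧
      ∀ w c, Z B Q Δ I k w c = x w c) : ℝ) ≤
        (H.factorial : ℝ) ^ (e - a) * ∏ s ∈ R, wt H Q a s

/-- C10. -/
def Master : Prop := ∀ (H B Q Δ : ℕ) (I₀ : ℕ → Inp H) (a e σ k : ℕ) (P : Finset ℕ)
  (x : ℕ → ℕ → ZMod 2),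
  2 ≤ H → 0 < B → 0 < Q → 0 < Δ → a ≤ e → e ≤ a + B → e ≤ σ → σ * (H + 1) ≤ k →
  (∀ s ∈ P, e ≤ s) →
    (cnt (Finset.Ico a e) I₀ (fun I => pend Q I (σ * (H + 1) + 1) = P ∧
      (∀ s, e < s → s ≤ σ → ¬ Reset Q I s) ∧ ∀ w c, Z B Q Δ I k w c = x w c) : ℝ) ≤
        (H.factorial : ℝ) ^ (e - a) * ∏ s ∈ Finset.Ioc a e, (1 + wt H Q a s)

/-- C11. -/
def WtProd : Prop := ∀ (H B Q a e : ℕ), 16 ≤ H → 0 < Q → 32 * B ≤ 2 ^ Q → e ≤ a + B →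
  ∏ s ∈ Finset.Ioc a e, (1 + wt H Q a s) ≤ 8

/-- C12. Few zeros are unlikely. -/
def ZProb : Prop := ∀ (H : ℕ) (I₀ : ℕ → Inp H) (A : Finset ℕ) (σ τ m : ℕ), 2 ≤ H →
  Finset.Ico σ τ ⊆ A →
    (cnt A I₀ (fun I => ∑ t ∈ Finset.Ico σ τ, zs I t ≤ m) : ℝ) ≤
      2 ^ m * (3 / 4) ^ ((H - 2) * (τ - σ)) * (Fintype.card (Inp H) : ℝ) ^ A.card

/-- C13a. Paths whose queue is empty at the beginning of the block `σ`. -/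
def PathS : Prop := ∀ (H B Q Δ : ℕ) (I₀ : ℕ → Inp H) (a₀ k σ : ℕ) (x : ℕ → ℕ → ZMod 2),
  16 ≤ H → 0 < B → 0 < Δ → 32 * B ≤ 2 ^ Q → a₀ + Q ≤ k / (H + 1) → k / (H + 1) < σ + Q →
  σ ≤ k / (H + 1) →
    (cnt (Finset.Ico a₀ (k / (H + 1))) I₀ (fun I =>
      ∑ t ∈ Finset.Ico σ (k / (H + 1)), zs I t ≤ k / (H + 1) - σ ∧
        pend Q I (σ * (H + 1) + 1) = ∅ ∧ ∀ w c, Z B Q Δ I k w c = x w c) : ℝ) *
      2 ^ ((H + 1) * min (k / (H + 1) - a₀ - Q) B) ≤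
        8 * (2 * (3 / 4) ^ (H - 2)) ^ (k / (H + 1) - σ) *
          (Fintype.card (Inp H) : ℝ) ^ (k / (H + 1) - a₀)

/-- C13b. Paths whose queue is never empty at the beginning of the last blocks; `f` is the
smallest element of the queue at the end. -/
def PathN : Prop := ∀ (H B Q Δ : ℕ) (I₀ : ℕ → Inp H) (a₀ k f : ℕ) (x : ℕ → ℕ → ZMod 2),
  16 ≤ H → 0 < B → 0 < Δ → 32 * B ≤ 2 ^ Q → a₀ + Q ≤ k / (H + 1) → k / (H + 1) < f + Q →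
    (cnt (Finset.Ico a₀ (k / (H + 1))) I₀ (fun I =>
      ∑ t ∈ Finset.Ico (k / (H + 1) - Q) (k / (H + 1)), zs I t ≤ 2 * Q ∧
        pend Q I (k / (H + 1) * (H + 1) + 1) =
          (Finset.Ico f (k / (H + 1))).filter (fun t => rb I t 0 = true) ∧
        (∀ s, k / (H + 1) - Q < s → s ≤ k / (H + 1) → ¬ Reset Q I s) ∧
        ∀ w c, Z B Q Δ I k w c = x w c) : ℝ) *
      2 ^ ((H + 1) * min (k / (H + 1) - a₀ - Q) B) ≤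
        8 * (4 * (3 / 4) ^ (H - 2)) ^ Q * (Fintype.card (Inp H) : ℝ) ^ (k / (H + 1) - a₀)

/-- C13. The probability of a given position, along a path. -/
def PathProb : Prop := ∀ (H B Q Δ : ℕ) (I₀ : ℕ → Inp H) (a₀ k : ℕ) (x : ℕ → ℕ → ZMod 2),
  16 ≤ H → 0 < B → 0 < Δ → 32 * B ≤ 2 ^ Q → a₀ ≤ k / (H + 1) →
    (cnt (Finset.Ico a₀ (k / (H + 1))) I₀ (fun I => ∀ w c, Z B Q Δ I k w c = x w c) : ℝ) *
      2 ^ ((H + 1) * min (k / (H + 1) - a₀ - Q) B) ≤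
        17 * (Fintype.card (Inp H) : ℝ) ^ (k / (H + 1) - a₀)

/-! ### D. Counting: general facts -/

/-- D1. -/
def CntBasic : Prop := ∀ (ι β : Type) [DecidableEq ι] [Fintype β] (A : Finset ι) (I₀ : ι → β),
  (cnt A I₀ (fun _ => True) = Fintype.card β ^ A.card) ∧
  (∀ E F : (ι → β) → Prop, (∀ I, (∀ i, i ∉ A → I i = I₀ i) → E I → F I) →
    cnt A I₀ E ≤ cnt A I₀ F) ∧
  (∀ (K : Type) (Ks : Finset K) (E : K → (ι → β) → Prop),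
    cnt A I₀ (fun I => ∃ k ∈ Ks, E k I) ≤ ∑ k ∈ Ks, cnt A I₀ (E k)) ∧
  (∀ E : (ι → β) → Prop, cnt A I₀ E < Fintype.card β ^ A.card →
    ∃ I, (∀ i, i ∉ A → I i = I₀ i) ∧ ¬ E I)

/-- D2. Conditioning. -/
def CntCond : Prop := ∀ (ι β : Type) [DecidableEq ι] [Fintype β] (A s : Finset ι) (I₀ : ι → β)
  (E F : (ι → β) → Prop) (q : ℝ), s ⊆ A → 0 ≤ q →
  (∀ I I', (∀ i, i ∉ s → I i = I' i) → (E I ↔ E I')) →
  (∀ I, (∀ i, i ∉ A → I i = I₀ i) → E I → (cnt s I F : ℝ) ≤ q * (Fintype.card β : ℝ) ^ s.card) →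
    (cnt A I₀ (fun I => E I ∧ F I) : ℝ) ≤ q * cnt A I₀ E

/-- D3. Independence. -/
def CntIndep : Prop := ∀ (ι β : Type) [DecidableEq ι] [Fintype β] (A D D' : Finset ι)
  (I₀ : ι → β) (E F : (ι → β) → Prop), D ⊆ A → D' ⊆ A → Disjoint D D' →
  (∀ I I', (∀ i, i ∈ D → I i = I' i) → (E I ↔ E I')) →
  (∀ I I', (∀ i, i ∈ D' → I i = I' i) → (F I ↔ F I')) →
    cnt A I₀ (fun I => E I ∧ F I) * Fintype.card β ^ A.card = cnt A I₀ E * cnt A I₀ F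

/-- D4. The exponential moment. -/
def ExpMom : Prop := ∀ (α : Type) [DecidableEq α] (V : Finset α) (len : α → ℕ)
  (P : Finset α → ℝ) (a : α → ℝ) (b : α → α → ℝ) (z p : ℝ), 0 ≤ z → (∀ v, 0 ≤ a v) →
  (∀ u v, 0 ≤ b u v) → (∀ U, 0 ≤ P U) →
  (∀ U ⊆ V, ∀ v ∈ V, v ∉ U → (∀ u ∈ U, len u ≤ len v) →
    P (insert v U) ≤ P U * (a v + ∑ u ∈ U, b u v)) →
  (∀ u ∈ V, ∑ v ∈ V.filter (fun v => v ≠ u ∧ len u ≤ len v), b u v ≤ p) →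
  Real.exp 1 * z * p ≤ 1 →
    ∑ U ∈ V.powerset, z ^ U.card * P U ≤ P ∅ * Real.exp (Real.exp 1 * z * ∑ v ∈ V, a v)

/-- D5. The Lovász local lemma, for independent fair bits. -/
def Lll : Prop := ∀ (ι K : Type) [DecidableEq ι] [DecidableEq K] (A : Finset ι) (I₀ : ι → Bool)
  (Ks : Finset K) (E : K → (ι → Bool) → Prop) (D : K → Finset ι) (p : ℝ) (d : ℕ), 0 ≤ p →
  (∀ k ∈ Ks, D k ⊆ A) →
  (∀ k ∈ Ks, ∀ I I', (∀ i ∈ D k, I i = I' i) → (E k I ↔ E k I')) →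
  (∀ k ∈ Ks, (cnt A I₀ (E k) : ℝ) ≤ p * 2 ^ A.card) →
  (∀ k ∈ Ks, (Ks.filter fun k' => ¬ Disjoint (D k) (D k')).card ≤ d) → 0 < d → 4 * p * d ≤ 1 →
    ∃ I, (∀ i, i ∉ A → I i = I₀ i) ∧ ∀ k ∈ Ks, ¬ E k I

open Classical in
/-- D6. The Chernoff bound, for sums of independent groups. -/
def Chern : Prop := ∀ (ι α δ : Type) [DecidableEq ι] [DecidableEq α] (A : Finset ι)
  (I₀ : ι → Bool) (V : Finset α) (grp : α → δ) (E : α → (ι → Bool) → Prop) (D : α → Finset ι)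
  (b : ℕ) (q μ ε : ℝ), 0 < b → 0 ≤ q → 0 ≤ μ → 0 < ε → ε ≤ 1 / 2 → (∀ v ∈ V, D v ⊆ A) →
  (∀ v ∈ V, ∀ I I', (∀ i ∈ D v, I i = I' i) → (E v I ↔ E v I')) →
  (∀ v ∈ V, ∀ v' ∈ V, grp v ≠ grp v' → Disjoint (D v) (D v')) →
  (∀ y : δ, (V.filter fun v => grp v = y).card ≤ b) →
  (∀ v ∈ V, (cnt A I₀ (E v) : ℝ) ≤ q * 2 ^ A.card) → V.card * q ≤ μ →
    (cnt A I₀ (fun I => V.card * q + ε * μ ≤ ((V.filter fun v => E v I).card : ℝ)) : ℝ) ≤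
      Real.exp (-(ε ^ 2 * μ / (4 * b))) * 2 ^ A.card

open Classical in
/-- D7. The splitting lemma. -/
def Split : Prop := ∀ (ι α γ δ : Type) [DecidableEq ι] [DecidableEq α] (κ : ℕ) (V : Finset α)
  (Φ : α → γ) (var : α → Fin κ → ι) (sg : α → Fin κ → Bool) (cls : α → ℕ) (grp : α → δ)
  (M : ℝ) (b₀ b D : ℕ) (ε : ℝ) (g₀ : ι → Bool), 0 < κ → 0 < b → 0 < D → 0 < ε → ε ≤ 1 / 2 →
  (∀ v, cls v ≤ 2) →
  (∀ v ∈ V, cls v ≠ 0 → Function.Injective (var v)) →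
  (∀ v ∈ V, ∀ v' ∈ V, cls v = cls v' → cls v ≠ 0 → grp v ≠ grp v' →
    ∀ j j', var v j ≠ var v' j') →
  (∀ y : γ, ((V.filter fun v => Φ v = y).card : ℝ) ≤ M) →
  (∀ y : γ, (V.filter fun v => Φ v = y ∧ cls v = 0).card ≤ b₀) →
  (∀ (y : γ) (c : ℕ) (z : δ), c ≠ 0 →
    (V.filter fun v => Φ v = y ∧ cls v = c ∧ grp v = z).card ≤ b) →
  (∀ x : ι, (V.filter fun v => cls v ≠ 0 ∧ ∃ j, var v j = x).card ≤ D) →
  8 * (κ * M * D * 2 ^ κ) * Real.exp (-(ε ^ 2 * (M / 2 ^ κ) / (4 * b))) ≤ 1 →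
    ∃ g : ι → Bool, (∀ x, (∀ v ∈ V, cls v ≠ 0 → ∀ j, var v j ≠ x) → g x = g₀ x) ∧
      ∀ (y : γ) (a : Fin κ → Bool),
        ((V.filter fun v => Φ v = y ∧ (cls v ≠ 0 → ∀ j, xor (sg v j) (g (var v j)) = a j)).card :
          ℝ) ≤ (1 + 2 * ε) * (M / 2 ^ κ) + b₀

/-! ### E. The first stage -/

/-- E1. The probability of a given position. -/
def TreeProb : Prop := ∀ (H B Q Δ : ℕ) (ω : List Bool → Inp H) (v : List Bool) (a₀ : ℕ)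
  (x : ℕ → ℕ → ZMod 2), 16 ≤ H → 0 < B → 0 < Δ → 32 * B ≤ 2 ^ Q → a₀ ≤ v.length / (H + 1) →
    (cnt ((Finset.Ico a₀ (v.length / (H + 1))).image fun t => v.take (t * (H + 1))) ω
      (fun ω' => ∀ w c, PZ B Q Δ ω' v w c = x w c) : ℝ) ≤
        17 / 2 ^ ((H + 1) * min (v.length / (H + 1) - a₀ - Q) B) *
          (Fintype.card (Inp H) : ℝ) ^ ((Finset.Ico a₀ (v.length / (H + 1))).image
            fun t => v.take (t * (H + 1))).card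

/-- E2. The hypothesis of the exponential moment lemma. -/
def EmHyp : Prop := ∀ (H B Q Δ : ℕ) (T : Finset (List Bool)) (ω₀ : List Bool → Inp H)
  (x : ℕ → ℕ → ZMod 2), 16 ≤ H → 0 < B → 0 < Δ → 32 * B ≤ 2 ^ Q → PrefClosed T →
  ∀ U ⊆ T, ∀ v ∈ T, v ∉ U → (∀ u ∈ U, u.length ≤ v.length) →
    (cnt T ω₀ (fun ω => ∀ u ∈ insert v U, ∀ w c, PZ B Q Δ ω u w c = x w c) : ℝ) ≤
      (cnt T ω₀ (fun ω => ∀ u ∈ U, ∀ w c, PZ B Q Δ ω u w c = x w c) : ℝ) *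
        (aw H B Q v + ∑ u ∈ U, bw H B Q u v)

/-- E3. -/
def SumA : Prop := ∀ (H B Q n : ℕ) (T : Finset (List Bool)), (H + 1) * B ≤ n → T.card ≤ 2 ^ n →
  ∑ v ∈ T, aw H B Q v ≤ 17 * 2 ^ (n - (H + 1) * B) + PI H B Q

/-- E4. -/
def SumB : Prop := ∀ (H B Q : ℕ) (T : Finset (List Bool)) (u : List Bool),
  ∑ v ∈ T.filter (fun v => v ≠ u ∧ u.length ≤ v.length), bw H B Q u v ≤ PI H B Q

/-- E5. The load after the first stage. -/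
def LoadB : Prop := ∀ (H B Q Δ n : ℕ) (T : Finset (List Bool)) (M : ℝ),
  16 ≤ H → 0 < B → 0 < Δ → 32 * B ≤ 2 ^ Q → (H + 1) * B ≤ n → PrefClosed T → T.card ≤ 2 ^ n →
  4 * (17 * 2 ^ (n - (H + 1) * B) + PI H B Q) + 3 * ((H + 1) * B) * PI H B Q < M →
    ∃ ω : List Bool → Inp H, FibLe T (PZ B Q Δ ω) M

/-! ### F. The tags -/

/-- F1. -/
def TagArith : Prop := ∀ (κ : ℕ), 0 < κ →
  (∀ i j t, Tg κ i j t → 1 ≤ i → t % 2 = 1) ∧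
  (∀ i j i' j' t, j < κ → j' < κ → Tg κ i j t → Tg κ i' j' t → i = i' ∧ j = j') ∧
  (∀ i j t₀, j < κ → ∃ t, t₀ ≤ t ∧ t < t₀ + 2 ^ (i + 1) * κ ∧ Tg κ i j t) ∧
  (∀ i j, 1 ≤ i → ¬ Tg κ i j 0)

/-- F2. The tags of a child. -/
def TagEdge : Prop := ∀ (H κ : ℕ) (g : List Bool → Bool) (w : List Bool) (e : Bool) (i j : ℕ),
  0 < κ → 1 ≤ i →
  (w.length % (H + 1) ≠ 0 → 1 ≤ H → tagb H κ g i j (w ++ [e]) = tagb H κ g i j w) ∧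
  (∀ t, w.length = t * (H + 1) → Tg κ i j t → tagb H κ g i j (w ++ [e]) = xor e (g w)) ∧
  (∀ t, w.length = t * (H + 1) → ¬ Tg κ i j t → tagb H κ g i j (w ++ [e]) = tagb H κ g i j w)

/-- Conditions on the parameters for the splitting at the stage `i`. -/
def TN (κ H i : ℕ) (M : ℝ) : Prop :=
  (2 ^ (i + 2) * κ * (H + 1) : ℝ) ≤ (1 / 2) ^ (i + 1) * (M / 2 ^ κ) ∧
    8 * (κ * M * ((2 ^ ((2 ^ (i + 1) * κ + 1) * (H + 1)) : ℕ) : ℝ) * 2 ^ κ) *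
      Real.exp (-(((1 / 2) ^ i / 4) ^ 2 * (M / 2 ^ κ) /
        (4 * ((2 ^ (i + 2) * κ * (H + 1) : ℕ) : ℝ)))) ≤ 1

/-- F3. -/
def TagNum : Prop := ∀ κ H : ℕ, 4 ≤ κ → ∃ U₀ : ℕ, ∀ (i : ℕ) (M : ℝ), 1 ≤ i →
  (2 : ℝ) ^ (U₀ + κ * i) ≤ M → TN κ H i M

/-- F4. The vertices of a fibre in a group. -/
def GroupLe : Prop := ∀ (H B Q Δ h : ℕ) (ω : List Bool → Inp H) (T : Finset (List Bool))
  (w : List Bool) (t₀ p : ℕ), 2 ≤ H → 0 < Q → 0 < Δ → w.length = t₀ * (H + 1) → t₀ ≤ p →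
  p + h ≤ t₀ + Δ → p + h + Δ + Q ≤ t₀ + B + 1 →
  ∀ F ⊆ T, (∀ u ∈ F, ∀ v ∈ F, ∀ a c, PZ B Q Δ ω u a c = PZ B Q Δ ω v a c) →
    (∀ v ∈ F, v.take (t₀ * (H + 1)) = w ∧ p * (H + 1) ≤ v.length ∧
      v.length < (p + h) * (H + 1)) → F.card ≤ 2 * h * (H + 1)

/-- F5. One stage. -/
def TagStep : Prop := ∀ (H B Q Δ κ J i : ℕ) (ω : List Bool → Inp H) (g₀ : List Bool → Bool)
  (T : Finset (List Bool)) (M : ℝ), 2 ≤ H → 0 < Q → 0 < κ → 1 ≤ i → i ≤ J →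
  2 ^ (i + 2) * κ ≤ Δ → 2 ^ (i + 2) * κ + Δ + Q ≤ B → PrefClosed T → TN κ H i M →
  FibLe T (Pos B Q Δ κ J (i + 1) ω g₀) M →
    ∃ g, FibLe T (Pos B Q Δ κ J i ω g) ((1 + (1 / 2) ^ i) * (M / 2 ^ κ))

/-- F6. All stages. -/
def TagAll : Prop := ∀ (H B Q Δ κ J U₀ : ℕ) (ω : List Bool → Inp H) (T : Finset (List Bool))
  (M : ℝ), 2 ≤ H → 0 < Q → 0 < κ → 2 ^ (J + 2) * κ ≤ Δ → 2 ^ (J + 2) * κ + Δ + Q ≤ B →
  PrefClosed T → (∀ (i : ℕ) (M : ℝ), 1 ≤ i → (2 : ℝ) ^ (U₀ + κ * i) ≤ M → TN κ H i M) →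
  (2 : ℝ) ^ (U₀ + κ * J) ≤ M → FibLe T (PZ B Q Δ ω) M →
    ∃ g, FibLe T (Pos B Q Δ κ J 1 ω g) (4 * (M / 2 ^ (κ * J)))

/-! ### G. The last stage -/

/-- G0a. The real part of the position of a child. -/
def StepPZ : Prop := ∀ (H B Q Δ : ℕ) (ω : List Bool → Inp H) (v : List Bool) (e : Bool),
  2 ≤ H → 0 < B → 0 < Q → 0 < Δ →
  (∀ w c, PZ B Q Δ ω (v ++ [e]) w c = PZ B Q Δ ω v w c) ∨
    (v.length % (H + 1) ≠ 0 ∧ ∃ w₀ c₀, w₀ < B ∧ c₀ ≤ H ∧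
      ∀ w c, PZ B Q Δ ω (v ++ [e]) w c = PZ B Q Δ ω v w c + if w = w₀ ∧ c = c₀ then 1 else 0)

/-- G0b. The position of a child. -/
def PosEdge : Prop := ∀ (H B Q Δ κ J : ℕ) (ω : List Bool → Inp H) (g : List Bool → Bool)
  (v : List Bool) (e : Bool), 2 ≤ H → 0 < B → 0 < Q → 0 < Δ → 0 < κ →
  (v.length % (H + 1) ≠ 0 → ∀ i j, Pos B Q Δ κ J 1 ω g (v ++ [e]) (Co.tag i j) =
    Pos B Q Δ κ J 1 ω g v (Co.tag i j)) ∧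
  (∀ t, v.length = t * (H + 1) → (∀ i j, 1 ≤ i → i ≤ J → j < κ → ¬ Tg κ i j t) →
    Pos B Q Δ κ J 1 ω g (v ++ [e]) = Pos B Q Δ κ J 1 ω g v) ∧
  (∀ t i j, v.length = t * (H + 1) → 1 ≤ i → i ≤ J → j < κ → Tg κ i j t →
    Pos B Q Δ κ J 1 ω g (v ++ [e]) = Function.update (Pos B Q Δ κ J 1 ω g v) (Co.tag i j)
      (if xor e (g v) = true then 1 else 0))

/-- G1. Every edge changes at most one coordinate. -/
def PosStep : Prop := ∀ (H B Q Δ κ J : ℕ) (ω : List Bool → Inp H) (g : List Bool → Bool)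
  (v : List Bool) (e : Bool), 2 ≤ H → 0 < B → 0 < Q → 0 < Δ → 0 < κ →
    Pos B Q Δ κ J 1 ω g (v ++ [e]) = Pos B Q Δ κ J 1 ω g v ∨
      ∃ c ∈ allCo H B κ J, Pos B Q Δ κ J 1 ω g (v ++ [e]) =
        Pos B Q Δ κ J 1 ω g v + Pi.single c 1

/-- G2. The black components are small. -/
def CompSize : Prop := ∀ (H B Q Δ κ J : ℕ) (ω : List Bool → Inp H) (g : List Bool → Bool)
  (T : Finset (List Bool)) (v : List Bool), 2 ≤ H → 0 < B → 0 < Q → 0 < Δ → 0 < κ →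
    (T.filter fun u => u.take (tp (Pos B Q Δ κ J 1 ω g) u) =
      v.take (tp (Pos B Q Δ κ J 1 ω g) v)).card ≤ 2 ^ (2 * (H + 1))

/-- G3. The position is injective on the black components. -/
def CompInj : Prop := ∀ (H B Q Δ κ J : ℕ) (ω : List Bool → Inp H) (g : List Bool → Bool)
  (u v : List Bool), 2 ≤ H → 0 < Q → 0 < κ → 3 ≤ Δ → Δ + Q + 2 ≤ B →
    u.take (tp (Pos B Q Δ κ J 1 ω g) u) = v.take (tp (Pos B Q Δ κ J 1 ω g) v) →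
      Pos B Q Δ κ J 1 ω g u = Pos B Q Δ κ J 1 ω g v → u = v

/-- `T` can be embedded in the hypercube of dimension `m`. -/
def EmbT (T : Finset (List Bool)) (m : ℕ) : Prop :=
  ∃ f : List Bool → (Fin m → Bool), (∀ u ∈ T, ∀ v ∈ T, f u = f v → u = v) ∧
    ∀ (v : List Bool) (e : Bool), v ++ [e] ∈ T → hammingDist (f v) (f (v ++ [e])) = 1

/-- G4. The labels of the white edges. -/
def Colour : Prop := ∀ (γ : Type) (T : Finset (List Bool)) (Φ : List Bool → γ) (F G L : ℕ),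
  PrefClosed T → FibLe T Φ F →
  (∀ v : List Bool, (T.filter fun u => u.take (tp Φ u) = v.take (tp Φ v)).card ≤ G) →
  (∀ u ∈ T, ∀ v ∈ T, u.take (tp Φ u) = v.take (tp Φ v) → Φ u = Φ v → u = v) → F * G < L →
    ∃ W : List Bool → (Fin L → ZMod 2),
      (∀ u ∈ T, ∀ v ∈ T, Φ u = Φ v → W u = W v → u = v) ∧
      ∀ (v : List Bool) (e : Bool), v ++ [e] ∈ T →
        (Φ (v ++ [e]) = Φ v ∧ ∃ l, W (v ++ [e]) = W v + Pi.single l 1) ∨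
          (Φ (v ++ [e]) ≠ Φ v ∧ W (v ++ [e]) = W v)

/-- G5. The embedding. -/
def ColEmb : Prop := ∀ (γ : Type) [DecidableEq γ] (C : Finset γ) (T : Finset (List Bool))
  (Φ : List Bool → γ → ZMod 2) (F G m : ℕ),
  PrefClosed T → FibLe T Φ F →
  (∀ v : List Bool, (T.filter fun u => u.take (tp Φ u) = v.take (tp Φ v)).card ≤ G) →
  (∀ u ∈ T, ∀ v ∈ T, u.take (tp Φ u) = v.take (tp Φ v) → Φ u = Φ v → u = v) →
  (∀ (v : List Bool) (e : Bool), Φ (v ++ [e]) = Φ v ∨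
    ∃ c ∈ C, Φ (v ++ [e]) = Φ v + Pi.single c 1) → C.card + F * G + 1 ≤ m → EmbT T m

/-- G6. Small trees. -/
def SmallEmb : Prop := ∀ (T : Finset (List Bool)) (m : ℕ), PrefClosed T → T.card + 1 ≤ m →
  EmbT T m

/-- G7. The choice of the parameters. -/
def ParamsC : Prop := ∀ U₀ : ℕ, ∃ n₀ : ℕ, ∀ n : ℕ, n₀ ≤ n → ∃ B Q Δ J U : ℕ,
  U₀ ≤ U ∧ U ≤ U₀ + 17 ∧ 17 * B + 64 * J + U = n + 7 ∧ 17 * B ≤ n ∧ 0 < B ∧ 0 < Q ∧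
  32 * B ≤ 2 ^ Q ∧ 3 ≤ Δ ∧ 2 ^ (J + 2) * 64 ≤ Δ ∧ 2 ^ (J + 2) * 64 + Δ + Q + 2 ≤ B ∧
  (3 * (17 * B) + 4 : ℝ) * PI 16 B Q < 60 * 2 ^ (n - 17 * B)

/-- The combinatorial core. -/
def CoreC : Prop := ∃ C : ℕ, ∀ (n : ℕ) (T : Finset (List Bool)), PrefClosed T →
  T.card ≤ 2 ^ n → EmbT T (n + C)

/-- The final statement. -/
def FinalC : Prop := ∃ C : ℕ, ∀ n : ℕ,
  ∀ (V : Type) [Fintype V] [DecidableEq V] (G : SimpleGraph V) [DecidableRel G.Adj],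
    G.IsTree → (∀ v : V, G.degree v ≤ 3) → Fintype.card V ≤ 2 ^ n →
      ∃ f : G →g SimpleGraph.fromRel (fun x y : Fin (n + C) → Bool => hammingDist x y = 1),
        Function.Injective f

end Pool.Agent.Work.MP_bf01b2_co.Cx
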